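import Pool.Agent.H47.VT.Targets6

/-! Board vdeg_modules, module SGA: partial sums of a triple convolution. -/

set_option autoImplicit false

open Finset

namespace Pool.Agent.H19.VT

open Pool.Agent.H47.VT

/-- partial sums -/
def Sm (f : ArithmeticFunction ℝ) (N : ℕ) : ℝ := ∑ n ∈ Ioc 0 N, f n

theorem Sm_sub (f : ArithmeticFunction ℝ) {U M : ℕ} (h : U ≤ M) :
    ∑ n ∈ Ioc U M, f n = Sm f M - Sm f U := by
  unfold Sm
  rw [← Finset.sum_Ioc_consecutive (fun n => f n) (Nat.zero_le U) h]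
  ring

/-- the hyperbola method -/
theorem hyp (f g : ArithmeticFunction ℝ) (N U : ℕ) (hU : U ≤ N) :
    Sm (f * g) N = ∑ a ∈ Ioc 0 U, f a * Sm g (N / a) +
      ∑ b ∈ Ioc 0 (N / (U + 1)), g b * (Sm f (N / b) - Sm f U) := by
  have h1 : Sm (f * g) N = ∑ a ∈ Ioc 0 N, f a * Sm g (N / a) :=
    ArithmeticFunction.sum_Ioc_mul_eq_sum_sum f g N
  have h2 : ∑ a ∈ Ioc U N, f a * Sm g (N / a) =
      ∑ b ∈ Ioc 0 (N / (U + 1)), g b * (Sm f (N / b) - Sm f U) := by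
    have h3 : ∀ b ∈ Ioc 0 (N / (U + 1)), g b * (Sm f (N / b) - Sm f U) =
        ∑ a ∈ Ioc U (N / b), f a * g b := by
      intro b hb
      rw [mem_Ioc] at hb
      have h4 : U + 1 ≤ N / b := by
        rw [Nat.le_div_iff_mul_le (by omega)]
        have := Nat.mul_le_of_le_div _ _ _ hb.2
        rwa [mul_comm] at this
      rw [← Sm_sub f (by omega : U ≤ N / b), Finset.mul_sum]
      exact Finset.sum_congr rfl fun a _ => by ring
    rw [Finset.sum_congr rfl h3]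
    have h5 : ∀ a ∈ Ioc U N, f a * Sm g (N / a) = ∑ b ∈ Ioc 0 (N / a), f a * g b := by
      intro a _
      unfold Sm
      rw [Finset.mul_sum]
    rw [Finset.sum_congr rfl h5]
    apply Finset.sum_comm'
    intro a b
    simp only [mem_Ioc]
    constructor
    · rintro ⟨⟨h6, h7⟩, h8, h9⟩
      have h10 : b * a ≤ N := by
        rwa [Nat.le_div_iff_mul_le (by omega)] at h9
      refine ⟨⟨h6, ?_⟩, h8, ?_⟩
      · rw [Nat.le_div_iff_mul_le (by omega), mul_comm]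
        exact h10
      · rw [Nat.le_div_iff_mul_le (by omega)]
        exact le_trans (Nat.mul_le_mul_left b (by omega)) h10
    · rintro ⟨⟨h6, h7⟩, h8, h9⟩
      have h10 : a * b ≤ N := by
        rwa [Nat.le_div_iff_mul_le (by omega)] at h7
      have h11 : a ≤ N := le_trans (Nat.le_mul_of_pos_right a h8) h10
      refine ⟨⟨h6, h11⟩, h8, ?_⟩
      rw [Nat.le_div_iff_mul_le (by omega), mul_comm]
      exact h10
  rw [h1, ← h2, Finset.sum_Ioc_consecutive _ (Nat.zero_le U) hU]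

theorem sum_inv_sqrt (N : ℕ) : ∑ n ∈ Ioc 0 N, 1 / Real.sqrt n ≤ 2 * Real.sqrt N := by
  induction N with
  | zero => simp
  | succ n ih =>
    rw [← Finset.sum_Ioc_consecutive _ (Nat.zero_le n) (Nat.le_succ n)]
    have h1 : Ioc n (n + 1) = {n + 1} := by
      ext x
      simp only [mem_Ioc, mem_singleton]
      omega
    rw [Nat.succ_eq_add_one, h1, Finset.sum_singleton]
    have hs : 0 < Real.sqrt ((n + 1 : ℕ) : ℝ) := Real.sqrt_pos.2 (by positivity)
    have h2 : Real.sqrt (n : ℝ) ≤ Real.sqrt ((n + 1 : ℕ) : ℝ) := Real.sqrt_le_sqrt (by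
      push_cast; linarith)
    have h3 : Real.sqrt ((n + 1 : ℕ) : ℝ) ^ 2 = n + 1 := by
      rw [Real.sq_sqrt (by positivity)]
      push_cast
      ring
    have h4 : Real.sqrt (n : ℝ) ^ 2 = n := Real.sq_sqrt (by positivity)
    have h5 : 1 / Real.sqrt ((n + 1 : ℕ) : ℝ) ≤
        2 * (Real.sqrt ((n + 1 : ℕ) : ℝ) - Real.sqrt (n : ℝ)) := by
      rw [div_le_iff₀ hs]
      nlinarith [Real.sqrt_nonneg (n : ℝ)]
    linarith

theorem hdiv_le (M : ℕ) (hM : 1 ≤ M) :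
    ((M / (Nat.sqrt M + 1) : ℕ) : ℝ) ≤ Real.sqrt M := by
  have h1 : Real.sqrt M < Nat.sqrt M + 1 := Real.real_sqrt_lt_nat_sqrt_succ
  have h2 : 0 < Real.sqrt M := Real.sqrt_pos.2 (by exact_mod_cast hM)
  have h3 : ((M / (Nat.sqrt M + 1) : ℕ) : ℝ) ≤ (M : ℝ) / ((Nat.sqrt M + 1 : ℕ) : ℝ) :=
    Nat.cast_div_le
  refine h3.trans ?_
  rw [div_le_iff₀ (by positivity)]
  push_cast
  have h4 : Real.sqrt (M : ℝ) * Real.sqrt M = M := Real.mul_self_sqrt (by positivity)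
  nlinarith

theorem two_le (f g : ArithmeticFunction ℝ) (B : ℝ) (hB : 0 ≤ B) (hf : ∀ n, |f n| ≤ 1)
    (hg : ∀ n, |g n| ≤ 1) (hF : ∀ N, |Sm f N| ≤ B) (hG : ∀ N, |Sm g N| ≤ B) (M : ℕ) :
    |Sm (f * g) M| ≤ 3 * B * Real.sqrt M := by
  rcases Nat.eq_zero_or_pos M with rfl | hM
  · simp [Sm]
  rw [hyp f g M (Nat.sqrt M) (Nat.sqrt_le_self M)]
  have h1 : |∑ a ∈ Ioc 0 (Nat.sqrt M), f a * Sm g (M / a)| ≤ B * Real.sqrt M := by
    calc |∑ a ∈ Ioc 0 (Nat.sqrt M), f a * Sm g (M / a)| ≤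
        ∑ a ∈ Ioc 0 (Nat.sqrt M), |f a * Sm g (M / a)| := Finset.abs_sum_le_sum_abs _ _
      _ ≤ ∑ _a ∈ Ioc 0 (Nat.sqrt M), B := by
          refine Finset.sum_le_sum fun a _ => ?_
          rw [abs_mul]
          calc |f a| * |Sm g (M / a)| ≤ 1 * B :=
                mul_le_mul (hf a) (hG _) (abs_nonneg _) zero_le_one
            _ = B := one_mul B
      _ = B * Nat.sqrt M := by
          rw [Finset.sum_const, Nat.card_Ioc, nsmul_eq_mul]
          simp [mul_comm]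
      _ ≤ B * Real.sqrt M := mul_le_mul_of_nonneg_left Real.nat_sqrt_le_real_sqrt hB
  have h2 : |∑ b ∈ Ioc 0 (M / (Nat.sqrt M + 1)), g b * (Sm f (M / b) - Sm f (Nat.sqrt M))| ≤
      2 * B * Real.sqrt M := by
    calc |∑ b ∈ Ioc 0 (M / (Nat.sqrt M + 1)), g b * (Sm f (M / b) - Sm f (Nat.sqrt M))| ≤
        ∑ b ∈ Ioc 0 (M / (Nat.sqrt M + 1)), |g b * (Sm f (M / b) - Sm f (Nat.sqrt M))| :=
          Finset.abs_sum_le_sum_abs _ _
      _ ≤ ∑ _b ∈ Ioc 0 (M / (Nat.sqrt M + 1)), 2 * B := by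
          refine Finset.sum_le_sum fun b _ => ?_
          rw [abs_mul]
          have h3 : |Sm f (M / b) - Sm f (Nat.sqrt M)| ≤ 2 * B := by
            have := abs_sub (Sm f (M / b)) (Sm f (Nat.sqrt M))
            have h4 := hF (M / b)
            have h5 := hF (Nat.sqrt M)
            linarith
          calc |g b| * |Sm f (M / b) - Sm f (Nat.sqrt M)| ≤ 1 * (2 * B) :=
                mul_le_mul (hg b) h3 (abs_nonneg _) zero_le_one
            _ = 2 * B := one_mul _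
      _ = 2 * B * ((M / (Nat.sqrt M + 1) : ℕ) : ℝ) := by
          rw [Finset.sum_const, Nat.card_Ioc, nsmul_eq_mul, Nat.sub_zero]
          ring
      _ ≤ 2 * B * Real.sqrt M := mul_le_mul_of_nonneg_left (hdiv_le M hM) (by linarith)
  have h3 := abs_add_le (∑ a ∈ Ioc 0 (Nat.sqrt M), f a * Sm g (M / a))
    (∑ b ∈ Ioc 0 (M / (Nat.sqrt M + 1)), g b * (Sm f (M / b) - Sm f (Nat.sqrt M)))
  linarith

/-- the sum of the divisor function -/
theorem abs_le (f g : ArithmeticFunction ℝ) (hf : ∀ n, |f n| ≤ 1) (hg : ∀ n, |g n| ≤ 1) (U : ℕ) :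
    ∑ a ∈ Ioc 0 U, |(f * g) a| ≤ 2 * (U * Real.sqrt U) := by
  set z : ArithmeticFunction ℝ := ((ArithmeticFunction.zeta : ArithmeticFunction ℕ) :
    ArithmeticFunction ℝ) with hz
  have hz1 : ∀ n : ℕ, n ≠ 0 → z n = 1 := by
    intro n hn
    rw [hz, ArithmeticFunction.natCoe_apply, ArithmeticFunction.zeta_apply, if_neg hn,
      Nat.cast_one]
  have h1 : ∀ a ∈ Ioc 0 U, |(f * g) a| ≤ (z * z) a := by
    intro a _
    rw [ArithmeticFunction.mul_apply, ArithmeticFunction.mul_apply]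
    refine (Finset.abs_sum_le_sum_abs _ _).trans (Finset.sum_le_sum fun x hx => ?_)
    have hx' := Nat.mem_divisorsAntidiagonal.1 hx
    have hx1 : x.1 ≠ 0 := by
      intro h
      rw [h, zero_mul] at hx'
      exact hx'.2 hx'.1.symm
    have hx2 : x.2 ≠ 0 := by
      intro h
      rw [h, mul_zero] at hx'
      exact hx'.2 hx'.1.symm
    rw [hz1 _ hx1, hz1 _ hx2, abs_mul]
    exact mul_le_mul (hf _) (hg _) (abs_nonneg _) zero_le_one
  refine (Finset.sum_le_sum h1).trans ?_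
  rw [ArithmeticFunction.sum_Ioc_mul_eq_sum_sum]
  have h2 : ∀ n ∈ Ioc 0 U, z n * ∑ m ∈ Ioc 0 (U / n), z m ≤ U * (1 / Real.sqrt n) := by
    intro n hn
    have hn0 := (mem_Ioc.1 hn).1
    have h3 : ∑ m ∈ Ioc 0 (U / n), z m = ((U / n : ℕ) : ℝ) := by
      rw [Finset.sum_congr rfl fun m hm => hz1 m (by have := (mem_Ioc.1 hm).1; omega),
        Finset.sum_const, Nat.card_Ioc, nsmul_eq_mul, mul_one, Nat.sub_zero]
    rw [hz1 n (by omega), one_mul, h3]
    have h4 : ((U / n : ℕ) : ℝ) ≤ (U : ℝ) / n := Nat.cast_div_le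
    have h5 : (1 : ℝ) ≤ n := by exact_mod_cast hn0
    have h6 : Real.sqrt n ≤ n := by
      rw [Real.sqrt_le_left (by positivity)]
      nlinarith
    have h7 : 0 < Real.sqrt n := Real.sqrt_pos.2 (by linarith)
    refine h4.trans ?_
    rw [div_eq_mul_one_div]
    apply mul_le_mul_of_nonneg_left _ (Nat.cast_nonneg _)
    exact one_div_le_one_div_of_le h7 h6
  refine (Finset.sum_le_sum h2).trans ?_
  rw [← Finset.mul_sum]
  have h3 := sum_inv_sqrt U
  have h4 : (0 : ℝ) ≤ U := Nat.cast_nonneg _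
  nlinarith

theorem pf_SGA : T_SGA := by
  refine ⟨14, by norm_num, ?_⟩
  intro f₁ f₂ f₃ B hB hf hF N hN
  have hI : ∀ N : ℕ, Finset.Icc 1 N = Finset.Ioc 0 N := by
    intro N
    ext x
    simp only [mem_Icc, mem_Ioc]
    omega
  simp only [hI] at hF ⊢
  have hF1 : ∀ N, |Sm f₁ N| ≤ B := fun N => (hF N).1
  have hF2 : ∀ N, |Sm f₂ N| ≤ B := fun N => (hF N).2.1
  have hF3 : ∀ N, |Sm f₃ N| ≤ B := fun N => (hF N).2.2
  have hB0 : 0 ≤ B := by linarith
  obtain ⟨h, hh⟩ : ∃ h, h = f₂ * f₃ := ⟨_, rfl⟩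
  have hS : ∀ M, |Sm h M| ≤ 3 * B * Real.sqrt M := by
    intro M
    rw [hh]
    exact two_le f₂ f₃ B hB0 (fun n => (hf n).2.1) (fun n => (hf n).2.2) hF2 hF3 M
  have hA : ∀ U : ℕ, ∑ a ∈ Ioc 0 U, |h a| ≤ 2 * (U * Real.sqrt U) := by
    intro U
    rw [hh]
    exact abs_le f₂ f₃ (fun n => (hf n).2.1) (fun n => (hf n).2.2) U
  have e1 : ∑ n ∈ Ioc 0 N, (f₁ * (f₂ * f₃)) n = Sm (h * f₁) N := by
    rw [hh, mul_comm (f₂ * f₃) f₁]
    rfl
  rw [e1, hyp h f₁ N (Nat.sqrt N) (Nat.sqrt_le_self N)]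
  obtain ⟨r, hr⟩ : ∃ r : ℝ, r = Real.sqrt N := ⟨_, rfl⟩
  have hN1 : (1 : ℝ) ≤ N := by exact_mod_cast hN
  have hr0 : 0 ≤ r := by rw [hr]; exact Real.sqrt_nonneg _
  have hUr : ((Nat.sqrt N : ℕ) : ℝ) ≤ r := by rw [hr]; exact Real.nat_sqrt_le_real_sqrt
  have hVr : ((N / (Nat.sqrt N + 1) : ℕ) : ℝ) ≤ r := by rw [hr]; exact hdiv_le N hN
  have hpow : (N : ℝ) ^ (3 / 4 : ℝ) = r * Real.sqrt r := by
    rw [hr, Real.sqrt_eq_rpow, Real.sqrt_eq_rpow, ← Real.rpow_mul (by positivity),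
      ← Real.rpow_add (by linarith)]
    norm_num
  have hsr : 0 ≤ Real.sqrt r := Real.sqrt_nonneg r
  have h1 : |∑ a ∈ Ioc 0 (Nat.sqrt N), h a * Sm f₁ (N / a)| ≤ 2 * B * (r * Real.sqrt r) := by
    calc |∑ a ∈ Ioc 0 (Nat.sqrt N), h a * Sm f₁ (N / a)| ≤
        ∑ a ∈ Ioc 0 (Nat.sqrt N), |h a * Sm f₁ (N / a)| := Finset.abs_sum_le_sum_abs _ _
      _ ≤ ∑ a ∈ Ioc 0 (Nat.sqrt N), |h a| * B := by
          refine Finset.sum_le_sum fun a _ => ?_
          rw [abs_mul]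
          exact mul_le_mul_of_nonneg_left (hF1 _) (abs_nonneg _)
      _ = (∑ a ∈ Ioc 0 (Nat.sqrt N), |h a|) * B := by rw [Finset.sum_mul]
      _ ≤ 2 * (((Nat.sqrt N : ℕ) : ℝ) * Real.sqrt ((Nat.sqrt N : ℕ) : ℝ)) * B :=
          mul_le_mul_of_nonneg_right (hA _) hB0
      _ ≤ 2 * (r * Real.sqrt r) * B := by
          gcongr
      _ = 2 * B * (r * Real.sqrt r) := by ring
  have h2 : |∑ b ∈ Ioc 0 (N / (Nat.sqrt N + 1)), f₁ b * (Sm h (N / b) - Sm h (Nat.sqrt N))| ≤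
      12 * B * (r * Real.sqrt r) := by
    calc |∑ b ∈ Ioc 0 (N / (Nat.sqrt N + 1)), f₁ b * (Sm h (N / b) - Sm h (Nat.sqrt N))| ≤
        ∑ b ∈ Ioc 0 (N / (Nat.sqrt N + 1)), |f₁ b * (Sm h (N / b) - Sm h (Nat.sqrt N))| :=
          Finset.abs_sum_le_sum_abs _ _
      _ ≤ ∑ b ∈ Ioc 0 (N / (Nat.sqrt N + 1)), 6 * B * r * (1 / Real.sqrt b) := by
          refine Finset.sum_le_sum fun b hb => ?_
          rw [mem_Ioc] at hb
          have hb0 : (0 : ℝ) < b := by exact_mod_cast hb.1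
          have hsb : 0 < Real.sqrt b := Real.sqrt_pos.2 hb0
          have hle : Nat.sqrt N ≤ N / b := by
            rw [Nat.le_div_iff_mul_le hb.1]
            have h5 := Nat.mul_le_of_le_div _ _ _ hb.2
            rw [mul_comm] at h5
            exact le_trans (Nat.mul_le_mul_right b (by omega)) h5
          have h6 : ((N / b : ℕ) : ℝ) ≤ (N : ℝ) / b := Nat.cast_div_le
          have h7 : Real.sqrt ((N / b : ℕ) : ℝ) ≤ r * (1 / Real.sqrt b) := by
            calc Real.sqrt ((N / b : ℕ) : ℝ) ≤ Real.sqrt ((N : ℝ) / b) := Real.sqrt_le_sqrt h6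
              _ = r * (1 / Real.sqrt b) := by
                rw [Real.sqrt_div (by positivity), hr]
                ring
          have h8 : Real.sqrt ((Nat.sqrt N : ℕ) : ℝ) ≤ r * (1 / Real.sqrt b) :=
            (Real.sqrt_le_sqrt (by exact_mod_cast hle)).trans h7
          have h9 : |Sm h (N / b) - Sm h (Nat.sqrt N)| ≤ 6 * B * r * (1 / Real.sqrt b) := by
            have h10 := abs_sub (Sm h (N / b)) (Sm h (Nat.sqrt N))
            have h11 := hS (N / b)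
            have h12 := hS (Nat.sqrt N)
            have h13 := mul_le_mul_of_nonneg_left h7 (by linarith : 0 ≤ 3 * B)
            have h14 := mul_le_mul_of_nonneg_left h8 (by linarith : 0 ≤ 3 * B)
            calc |Sm h (N / b) - Sm h (Nat.sqrt N)| ≤
                3 * B * (r * (1 / Real.sqrt b)) + 3 * B * (r * (1 / Real.sqrt b)) := by linarith
              _ = 6 * B * r * (1 / Real.sqrt b) := by ring
          rw [abs_mul]
          calc |f₁ b| * |Sm h (N / b) - Sm h (Nat.sqrt N)| ≤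
              1 * (6 * B * r * (1 / Real.sqrt b)) :=
                mul_le_mul (hf b).1 h9 (abs_nonneg _) zero_le_one
            _ = _ := one_mul _
      _ = 6 * B * r * ∑ b ∈ Ioc 0 (N / (Nat.sqrt N + 1)), 1 / Real.sqrt b := by
          rw [Finset.mul_sum]
      _ ≤ 6 * B * r * (2 * Real.sqrt ((N / (Nat.sqrt N + 1) : ℕ) : ℝ)) :=
          mul_le_mul_of_nonneg_left (sum_inv_sqrt _) (by positivity)
      _ ≤ 6 * B * r * (2 * Real.sqrt r) := by
          gcongr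
      _ = 12 * B * (r * Real.sqrt r) := by ring
  have h3 := abs_add_le (∑ a ∈ Ioc 0 (Nat.sqrt N), h a * Sm f₁ (N / a))
    (∑ b ∈ Ioc 0 (N / (Nat.sqrt N + 1)), f₁ b * (Sm h (N / b) - Sm h (Nat.sqrt N)))
  rw [hpow]
  have hB3 : B ≤ B ^ 3 := by nlinarith [sq_nonneg B, mul_nonneg hB0 hB0]
  have hrr : 0 ≤ r * Real.sqrt r := mul_nonneg hr0 hsr
  have h4 := mul_le_mul_of_nonneg_right hB3 hrr
  linarith

end Pool.Agent.H19.VT
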