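import Pool.Agent.H47.VT.Targets6
import Pool.Agent.H87.BV.SW

/-! Board vdeg_modules, module SW: the theorem of Siegel and Walfisz. -/

set_option autoImplicit false

open Finset Real ArithmeticFunction

namespace Pool.Agent.H19.VT

open Pool.Agent.H47.VT
open Pool.Agent.H30.BV (cv DS TX NX)
open Pool.Agent.H87.BV (sw_ev)

theorem sw_log3 (x : ℝ) (hx : 3 ≤ x) : 1 ≤ Real.log x := by
  rw [Real.le_log_iff_exp_le (by linarith)]
  linarith [Real.exp_one_lt_d9]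

theorem sw_lq (B q : ℕ) (y t v : ℝ) (hy : 3 ≤ y) (hq : 1 ≤ q) (hqy : (q : ℝ) ≤ y ^ B)
    (hv : |v| ≤ y ^ B) :
    Real.log (q * (|t + v| + 3)) ≤ (2 * B + 2) * Real.log y * Real.log (|t| + 3) := by
  have hq0 : (0 : ℝ) < q := by exact_mod_cast hq
  have h1 : 1 ≤ Real.log y := sw_log3 y hy
  have h2 : 1 ≤ Real.log (|t| + 3) := sw_log3 _ (by linarith [abs_nonneg t])
  have hyB : 1 ≤ y ^ B := one_le_pow₀ (by linarith)
  have h3 : |t + v| ≤ |t| + |v| := abs_add_le t v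
  have ht := abs_nonneg t
  have h4 : (q : ℝ) * (|t + v| + 3) ≤ y ^ (2 * B + 1) * (|t| + 3) := by
    calc (q : ℝ) * (|t + v| + 3) ≤ y ^ B * ((|t| + 3) + y ^ B) := by
          apply mul_le_mul hqy (by linarith) (by positivity) (by positivity)
      _ ≤ y ^ B * (2 * y ^ B * (|t| + 3)) := by
          apply mul_le_mul_of_nonneg_left _ (by positivity)
          nlinarith
      _ ≤ y ^ B * (y * y ^ B * (|t| + 3)) := by
          gcongr
          linarith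
      _ = y ^ (2 * B + 1) * (|t| + 3) := by ring
  have h5 : Real.log (q * (|t + v| + 3)) ≤ (2 * B + 1) * Real.log y + Real.log (|t| + 3) := by
    calc Real.log (q * (|t + v| + 3)) ≤ Real.log (y ^ (2 * B + 1) * (|t| + 3)) :=
          Real.log_le_log (by positivity) h4
      _ = (2 * B + 1) * Real.log y + Real.log (|t| + 3) := by
          rw [Real.log_mul (by positivity) (by positivity), Real.log_pow]
          push_cast
          ring
  have h6 : Real.log y ≤ Real.log y * Real.log (|t| + 3) := le_mul_of_one_le_right (by linarith) h2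
  have h7 : Real.log (|t| + 3) ≤ Real.log y * Real.log (|t| + 3) :=
    le_mul_of_one_le_left (by linarith) h1
  have hB : (0 : ℝ) ≤ B := Nat.cast_nonneg _
  nlinarith

theorem sw_shift (a : ℕ → ℂ) (w : ℂ) (k : ℕ) (s : ℂ) :
    DS (fun n => (Λ n : ℂ) * (a n * (n : ℂ) ^ (-w))) k s = DS (fun n => (Λ n : ℂ) * a n) k (s + w) := by
  unfold DS LSeries
  refine tsum_congr fun n => ?_
  rcases Nat.eq_zero_or_pos n with rfl | hn
  · simp
  · have hn0 : (n : ℂ) ≠ 0 := by exact_mod_cast hn.ne'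
    rw [LSeries.term_of_ne_zero hn.ne', LSeries.term_of_ne_zero hn.ne', Complex.cpow_add _ _ hn0]
    simp only [Complex.cpow_neg]
    have h1 : (n : ℂ) ^ w ≠ 0 := by
      rw [Ne, Complex.cpow_eq_zero_iff]
      exact fun h => hn0 h.1
    have h2 : (n : ℂ) ^ s ≠ 0 := by
      rw [Ne, Complex.cpow_eq_zero_iff]
      exact fun h => hn0 h.1
    field_simp

theorem sw_bdd {q : ℕ} (χ : DirichletCharacter ℂ q) (w : ℂ) (hw : 0 ≤ w.re) (n : ℕ) :
    ‖cv χ n * (n : ℂ) ^ (-w)‖ ≤ 1 := by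
  rw [norm_mul]
  have h1 : ‖cv χ n‖ ≤ 1 := DirichletCharacter.norm_le_one χ _
  have h2 : ‖(n : ℂ) ^ (-w)‖ ≤ 1 := by
    rcases Nat.eq_zero_or_pos n with rfl | hn
    · by_cases hw0 : w = 0
      · simp [hw0]
      · simp [hw0]
    · rw [Complex.norm_natCast_cpow_of_pos hn]
      rw [Complex.neg_re]
      exact Real.rpow_le_one_of_one_le_of_nonpos (by exact_mod_cast hn) (by linarith)
  calc ‖cv χ n‖ * ‖(n : ℂ) ^ (-w)‖ ≤ 1 * 1 := mul_le_mul h1 h2 (norm_nonneg _) zero_le_one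
    _ = 1 := by ring

theorem sw_num (C₁ Lq c qe y ℓ t3 b : ℝ) (K A k E : ℕ) (hk : k = 2 * A + 3)
    (hE : E = (K + 1) * (2 * k + 2)) (hC : 0 ≤ C₁) (hLq : 1 ≤ Lq) (hc : 0 < c) (hqe : 0 < qe)
    (hy : 0 < y) (hq : qe ≤ y ^ (1 / 4 : ℝ)) (hL : Lq ≤ b * ℓ * t3) (hb : 0 ≤ b) (hl : 0 ≤ ℓ)
    (ht : 0 ≤ t3) :
    C₁ * (Lq / (c / (qe * Lq ^ K))) ^ (2 * k + 2) ≤
      C₁ * (1 / c) ^ (2 * k + 2) * y ^ (A + 2) * (b * ℓ) ^ E * t3 ^ E := by
  have h1 : Lq / (c / (qe * Lq ^ K)) = 1 / c * qe * Lq ^ (K + 1) := by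
    have : Lq ^ K ≠ 0 := by positivity
    rw [pow_succ]
    field_simp
  have h2 : (qe : ℝ) ^ (2 * k + 2) ≤ y ^ (A + 2) := by
    calc qe ^ (2 * k + 2) ≤ (y ^ (1 / 4 : ℝ)) ^ (2 * k + 2) := by gcongr
      _ = y ^ (A + 2) := by
        rw [hk, show 2 * (2 * A + 3) + 2 = 4 * (A + 2) by ring, pow_mul]
        congr 1
        rw [← Real.rpow_natCast, ← Real.rpow_mul hy.le]
        norm_num
  have h3 : Lq ^ E ≤ (b * ℓ) ^ E * t3 ^ E := by
    rw [← mul_pow]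
    gcongr
  rw [h1, mul_pow, mul_pow, ← pow_mul, ← hE]
  calc C₁ * ((1 / c) ^ (2 * k + 2) * qe ^ (2 * k + 2) * Lq ^ E) ≤
      C₁ * ((1 / c) ^ (2 * k + 2) * y ^ (A + 2) * ((b * ℓ) ^ E * t3 ^ E)) := by gcongr
    _ = _ := by ring

theorem pf_SW (hLO : T_LO) (hGB : Pool.Agent.H30.BV.T_GB) (hIN : Pool.Agent.H30.BV.T_IN) :
    T_SW := by
  intro A B
  obtain ⟨ε, hε⟩ : ∃ ε : ℝ, ε = 1 / (4 * (B + 1)) := ⟨_, rfl⟩
  have hB0 : (0 : ℝ) ≤ B := Nat.cast_nonneg _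
  have hε0 : 0 < ε := by rw [hε]; positivity
  obtain ⟨K, c, hc0, hc1, hLO⟩ := hLO ε hε0
  obtain ⟨k, hk⟩ : ∃ k : ℕ, k = 2 * A + 3 := ⟨_, rfl⟩
  obtain ⟨C₁, hC₁, hGB⟩ := hGB k
  obtain ⟨E, hE⟩ : ∃ E : ℕ, E = (K + 1) * (2 * k + 2) := ⟨_, rfl⟩
  obtain ⟨C₂, hC₂, hIN⟩ := hIN k E
  obtain ⟨C₃, hC₃⟩ : ∃ C₃ : ℝ, C₃ = C₂ * (C₁ * (1 / c) ^ (2 * k + 2)) * ((2 * B + 2 : ℝ)) ^ E :=
    ⟨_, rfl⟩
  have h1 : ∀ᶠ X : ℝ in Filter.atTop, (8 : ℝ) ≤ X := Filter.eventually_ge_atTop _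
  have h2 : ∀ᶠ X : ℝ in Filter.atTop, (3 : ℝ) ≤ Real.log X :=
    Real.tendsto_log_atTop.eventually_ge_atTop _
  have h3 : ∀ᶠ X : ℝ in Filter.atTop, C₃ * Real.log (Real.log X) ^ E ≤ Real.log X :=
    Real.tendsto_log_atTop.eventually (sw_ev C₃ E)
  obtain ⟨X₀, hX₀⟩ := Filter.eventually_atTop.1 ((h1.and h2).and h3)
  refine ⟨X₀, fun X hX => ?_⟩
  obtain ⟨⟨g1, g2⟩, g3⟩ := hX₀ X hX
  obtain ⟨y, hy⟩ : ∃ y : ℝ, y = Real.log X := ⟨_, rfl⟩
  rw [← hy] at g2 g3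
  have hy0 : 0 < y := by linarith
  have hl1 : 1 ≤ Real.log y := sw_log3 y g2
  intro q χ w hq1 hqB hχ1 hw0 hw1 hwi
  rw [← hy] at hqB hwi
  have hq0 : (0 : ℝ) < q := by exact_mod_cast hq1
  have hq1' : (1 : ℝ) ≤ q := by exact_mod_cast hq1
  have hqe0 : 0 < (q : ℝ) ^ ε := by positivity
  have hqe1 : 1 ≤ (q : ℝ) ^ ε := Real.one_le_rpow hq1' hε0.le
  have hqe : (q : ℝ) ^ ε ≤ y ^ (1 / 4 : ℝ) := by
    have h5 : (q : ℝ) ≤ y ^ (B + 1) :=
      hqB.trans (pow_le_pow_right₀ (by linarith) (by omega))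
    calc (q : ℝ) ^ ε ≤ (y ^ (B + 1)) ^ ε := by gcongr
      _ = y ^ (1 / 4 : ℝ) := by
        rw [← Real.rpow_natCast, ← Real.rpow_mul hy0.le, hε]
        congr 1
        push_cast
        field_simp
  have hmain := hIN (fun n => cv χ n * (n : ℂ) ^ (-w)) X
    (C₁ * (1 / c) ^ (2 * k + 2) * y ^ (A + 2) * ((2 * B + 2) * Real.log y) ^ E)
    (sw_bdd χ w hw0) g1 (by
      intro t
      rw [sw_shift]
      obtain ⟨s, hs⟩ : ∃ s : ℂ, s = ((1 + 1 / Real.log X : ℝ) : ℂ) + t * Complex.I + w := ⟨_, rfl⟩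
      have hre : s.re = 1 + 1 / y + w.re := by rw [hs, ← hy]; simp
      have him : s.im = t + w.im := by rw [hs]; simp
      have hinv : 0 < 1 / y := by positivity
      have hinv1 : 1 / y ≤ 1 / 2 := by
        apply one_div_le_one_div_of_le (by norm_num)
        linarith
      have hs1 : 1 < s.re := by rw [hre]; linarith
      have hs2 : s.re ≤ 2 := by rw [hre]; linarith
      rw [← hs]
      have hlow := hLO q χ s hq1 hχ1 hs1 hs2
      obtain ⟨Lq, hLq⟩ : ∃ Lq : ℝ, Lq = Real.log ((q : ℝ) * (|s.im| + 3)) := ⟨_, rfl⟩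
      rw [← hLq] at hlow
      have hLq1 : 1 ≤ Lq := by
        rw [hLq]
        apply sw_log3
        have := abs_nonneg s.im
        nlinarith
      have hLK : 1 ≤ (q : ℝ) ^ ε * Lq ^ K := by
        have := one_le_pow₀ (n := K) hLq1
        nlinarith
      have hm0 : 0 < c / ((q : ℝ) ^ ε * Lq ^ K) := by positivity
      have hm1 : c / ((q : ℝ) ^ ε * Lq ^ K) ≤ 1 := by
        rw [div_le_one (by positivity)]
        linarith
      have hG := hGB q χ s (c / ((q : ℝ) ^ ε * Lq ^ K)) hq1 hχ1 hs1 hs2 hm0 hm1 hlow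
      rw [← hLq] at hG
      refine hG.trans ?_
      have hL2 := sw_lq B q y t w.im g2 hq1 hqB hwi
      rw [← him, ← hLq] at hL2
      exact sw_num C₁ Lq c ((q : ℝ) ^ ε) y (Real.log y) (Real.log (|t| + 3)) (2 * B + 2) K A k E hk
        hE hC₁.le hLq1 hc0 hqe0 hy0 hqe hL2 (by positivity) (by linarith)
        (Real.log_nonneg (by linarith [abs_nonneg t])))
  refine hmain.trans ?_
  rw [← hy]
  have hX0 : 0 < X := by linarith
  calc C₂ * (C₁ * (1 / c) ^ (2 * k + 2) * y ^ (A + 2) * ((2 * B + 2) * Real.log y) ^ E) * X / y ^ k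
      = (C₃ * Real.log y ^ E) * (y ^ (A + 2) * X / y ^ k) := by
        rw [hC₃, mul_pow]
        ring
    _ ≤ y * (y ^ (A + 2) * X / y ^ k) := by gcongr
    _ = X / y ^ A := by
      have h8 : y ^ k = y * (y ^ (A + 2) * y ^ A) := by
        rw [hk]
        ring
      rw [h8]
      have h9 : y ^ (A + 2) ≠ 0 := by positivity
      have h10 : y ^ A ≠ 0 := by positivity
      field_simp

end Pool.Agent.H19.VT
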